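import Pool.Agent.Helper25.UG.Bv2
import Pool.Agent.Helper69.UW.Defs

/-!
# UW: block M2 (Barban-Vehov), for any finite set of primes
-/

set_option autoImplicit false
open ArithmeticFunction Finset
open Pool.Agent.Helper57.LH Pool.Agent.Helper25.UG
open Pool.Agent.Helper69.UW (ma PR Adm ll vv)
open Pool.Agent.Helper69.UV (ww)

namespace Pool.Agent.Helper25.UW

/-- the weights of the project are `am (T^(1/16))`. -/
lemma ma_eq {T : ℝ} {Q : Finset ℕ} (hQ : ∀ p ∈ Q, p.Prime) (hT : 1 < T) {d : ℕ} (hd : d ≠ 0) :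
    ma T Q d = am (T ^ (1 / 16 : ℝ)) (pS Q) d := by
  have hT0 : 0 < T := by linarith
  have hL : 0 < Real.log T := Real.log_pos hT
  have hd0 : (0:ℝ) < d := by exact_mod_cast Nat.pos_of_ne_zero hd
  have hX : 0 < T ^ (1 / 16 : ℝ) := Real.rpow_pos_of_pos hT0 _
  have hcop : (∀ p ∈ Q, ¬ p ∣ d) ↔ d.Coprime (pS Q) := by
    unfold pS
    rw [Nat.coprime_prod_right_iff]
    refine forall₂_congr fun p hp => ?_
    rw [Nat.coprime_comm, (hQ p hp).coprime_iff_not_dvd]
  unfold ma am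
  by_cases h : d.Coprime (pS Q)
  · rw [if_pos (hcop.mpr h), if_pos h]
    unfold amol
    congr 1
    rw [Real.log_div hX.ne' hd0.ne', Real.log_div (Real.sqrt_pos.mpr hX).ne' hd0.ne', Real.log_sqrt hX.le,
      Real.log_rpow hT0]
    rcases le_total (Real.log d) (Real.log T / 32) with h1 | h1
    · have e1 : min 1 (2 - 32 * Real.log d / Real.log T) = 1 := by
        apply min_eq_left
        have : 32 * Real.log d / Real.log T ≤ 1 := by rw [div_le_iff₀ hL]; linarith
        linarith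
      have e2 : max 0 (1 / 16 * Real.log T - Real.log d) = 1 / 16 * Real.log T - Real.log d :=
        max_eq_right (by linarith)
      have e3 : max 0 (1 / 16 * Real.log T / 2 - Real.log d) = 1 / 16 * Real.log T / 2 - Real.log d :=
        max_eq_right (by linarith)
      rw [e1, e2, e3, max_eq_right (by norm_num)]
      field_simp
      ring
    · have e1 : min 1 (2 - 32 * Real.log d / Real.log T) = 2 - 32 * Real.log d / Real.log T := by
        apply min_eq_right
        have : 1 ≤ 32 * Real.log d / Real.log T := by rw [le_div_iff₀ hL]; linarith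
        linarith
      have e3 : max 0 (1 / 16 * Real.log T / 2 - Real.log d) = 0 := max_eq_left (by linarith)
      rw [e1, e3]
      rcases le_total (Real.log d) (Real.log T / 16) with h2 | h2
      · have e2 : max 0 (1 / 16 * Real.log T - Real.log d) = 1 / 16 * Real.log T - Real.log d :=
          max_eq_right (by linarith)
        have e4 : 32 * Real.log d / Real.log T ≤ 2 := by rw [div_le_iff₀ hL]; linarith
        rw [e2, max_eq_right (by linarith)]
        field_simp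
        ring
      · have e2 : max 0 (1 / 16 * Real.log T - Real.log d) = 0 := max_eq_left (by linarith)
        have e4 : 2 ≤ 32 * Real.log d / Real.log T := by rw [le_div_iff₀ hL]; linarith
        rw [e2, max_eq_left (by linarith)]
        simp
  · rw [if_neg (fun h1 => h (hcop.mp h1)), if_neg h]

/-- Barban-Vehov for any finite set of primes. -/
theorem bvQ {T : ℝ} {Q : Finset ℕ} (hQ : ∀ p ∈ Q, p.Prime) (hT1 : Real.exp 32 ≤ T) (S : Finset ℕ) (hS : ∀ n ∈ S, n ≠ 0) :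
    ∑ n ∈ S, (∑ d ∈ n.divisors, ma T Q d) ^ 2 * (n : ℝ) ^ (-(1 + 2 / Real.log T)) ≤
      16 * CQ * Real.exp (4 * ∑ p ∈ Q, (1 / p : ℝ)) := by
  have hT0 : 0 < T := (Real.exp_pos _).trans_le hT1
  have hL : 32 ≤ Real.log T := (Real.le_log_iff_exp_le hT0).mpr hT1
  have hTone : 1 < T := by
    have : (1:ℝ) < Real.exp 32 := Real.one_lt_exp_iff.mpr (by norm_num)
    linarith
  set X := T ^ (1 / 16 : ℝ) with hX
  have hlX : Real.log X = Real.log T / 16 := by rw [hX, Real.log_rpow hT0]; ring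
  have hXp : 0 < X := Real.rpow_pos_of_pos hT0 _
  have hX3 : 3 ≤ X := by
    have h1 : Real.exp 2 ≤ X := by
      rw [← Real.le_log_iff_exp_le hXp, hlX]; linarith
    have h2 := Real.add_one_le_exp (2:ℝ)
    linarith
  set q0 := pS Q with hq0
  have hsq : Squarefree q0 := pS_squarefree hQ
  set ε := 2 / Real.log T with hε
  have hε0 : 0 < ε := by positivity
  have hεX : ε * Real.log X ≤ 1 := by
    rw [hlX, hε]
    have : 2 / Real.log T * (Real.log T / 16) = 1 / 8 := by field_simp; norm_num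
    rw [this]; norm_num
  have hterm : ∀ n ∈ S, (∑ d ∈ n.divisors, ma T Q d) ^ 2 * (n : ℝ) ^ (-(1 + 2 / Real.log T)) =
      bm X q0 n ^ 2 * ew ε n := by
    intro n hn
    have hn0 := hS n hn
    have hn1 : (0:ℝ) < n := by exact_mod_cast Nat.pos_of_ne_zero hn0
    rw [← sum_am_eq (by linarith) hn0]
    congr 1
    · congr 1
      refine sum_congr rfl fun d hd => ?_
      exact ma_eq hQ hTone (Nat.pos_of_mem_divisors hd).ne'
    · unfold ew
      rw [Real.rpow_def_of_pos hn1, hε]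
      ring_nf
  rw [sum_congr rfl hterm]
  obtain ⟨K, hK⟩ : ∃ K : ℕ, S ⊆ Ioc 0 K := by
    refine ⟨S.sup id, fun n hn => ?_⟩
    rw [mem_Ioc]
    exact ⟨Nat.pos_of_ne_zero (hS n hn), le_sup (f := id) hn⟩
  calc _ ≤ ∑ n ∈ Ioc 0 K, bm X q0 n ^ 2 * ew ε n := by
        apply sum_le_sum_of_subset_of_nonneg hK
        intro n _ _
        exact mul_nonneg (sq_nonneg _) (ew_pos _ _).le
    _ ≤ (1 + 1 / ε) * (CQ * kap q0 ^ 2 / Real.log X) := bvq hX3 hε0 hεX hsq K
    _ ≤ (1 + 1 / ε) * (CQ * Real.exp (2 * ∑ p ∈ Q, (1 / p : ℝ)) ^ 2 / Real.log X) := by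
        have h1 : kap q0 ≤ Real.exp (2 * ∑ p ∈ Q, (1 / p : ℝ)) := kap_le_of_sum hQ le_rfl
        have h2 := (kap_pos q0).le
        have h3 := CQ_pos
        have h4 : 0 < Real.log X := by rw [hlX]; linarith
        gcongr
    _ ≤ _ := by
        have h3 := CQ_pos
        rw [hlX, hε]
        have h5 : 1 + 1 / (2 / Real.log T) ≤ Real.log T := by
          rw [one_div_div]; linarith
        have h6 : Real.exp (2 * ∑ p ∈ Q, (1 / p : ℝ)) ^ 2 = Real.exp (4 * ∑ p ∈ Q, (1 / p : ℝ)) := by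
          rw [← Real.exp_nat_mul]
          congr 1
          push_cast
          ring
        rw [h6]
        calc _ ≤ Real.log T * (CQ * Real.exp (4 * ∑ p ∈ Q, (1 / p : ℝ)) / (Real.log T / 16)) := by
              gcongr
          _ = _ := by field_simp

/-- M2: Barban-Vehov at `1/2 + 1/log T`. -/
theorem bv_of
    (PR_facts : ∀ {δ : ℝ} (_ : 0 < δ) (_ : δ ≤ 1 / 32), ∃ c0 T0 : ℝ, ∀ T c m : ℝ, T0 ≤ T → Adm c0 T c m →
      (∀ p ∈ PR δ T c m, p.Prime ∧ Real.log T ^ 4 < p ∧ Real.log T ^ 60 < p ∧ (p : ℝ) ≤ T ^ (1 / 1000 : ℝ) ∧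
        64 * m * Real.log p ≤ δ * Real.log T ∧ 1 < ww T c p) ∧
      1 ≤ ∑ p ∈ PR δ T c m, (1 / p : ℝ) ∧ ∑ p ∈ PR δ T c m, (1 / p : ℝ) ≤ ll c m)
    {δ : ℝ} (hδ : 0 < δ) (hδ1 : δ ≤ 1 / 32) : ∃ C c0 T0 : ℝ, 0 < C ∧ ∀ T c m : ℝ, T0 ≤ T → Adm c0 T c m →
    ∀ S : Finset ℕ, (∀ n ∈ S, n ≠ 0) →
    ∑ n ∈ S, (∑ d ∈ n.divisors, ma T (PR δ T c m) d) ^ 2 * (n : ℝ) ^ (-(1 + 2 / Real.log T)) ≤ C * Real.exp (C * √m) := by
  obtain ⟨c0, T0, hf⟩ := PR_facts hδ hδ1
  have h3 := CQ_pos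
  refine ⟨16 * CQ + 4, max c0 1, max T0 (Real.exp 32), by positivity, fun T c m hT hA S hS => ?_⟩
  have hT1 : Real.exp 32 ≤ T := (le_max_right _ _).trans hT
  have hfa := hf T c m ((le_max_left _ _).trans hT) (hA.mono (le_max_left _ _))
  have hA1 : Adm 1 T c m := hA.mono (le_max_right _ _)
  have h1 : ∑ p ∈ PR δ T c m, (1 / p : ℝ) ≤ √m := by
    refine hfa.2.2.trans (hA1.ll_le.trans ?_)
    have := hA1.log_le_sqrt (by norm_num)
    rwa [Real.sqrt_one, one_mul] at this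
  refine (bvQ (fun p hp => (hfa.1 p hp).1) hT1 S hS).trans ?_
  have h4 : 0 ≤ √m := Real.sqrt_nonneg m
  have h5 : Real.exp (4 * ∑ p ∈ PR δ T c m, (1 / p : ℝ)) ≤ Real.exp ((16 * CQ + 4) * √m) := by
    apply Real.exp_le_exp.mpr
    nlinarith
  have h6 : 0 < Real.exp ((16 * CQ + 4) * √m) := Real.exp_pos _
  calc _ ≤ 16 * CQ * Real.exp ((16 * CQ + 4) * √m) := by gcongr
    _ ≤ _ := by nlinarith

end Pool.Agent.Helper25.UW
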